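import Mathlib

/-!
# The outer lattice of a truncated simplex: admissibility

The difference body of `{μ : 0 ≤ μ i ≤ m i, ∑ μ i = 1}` is `|d i| ≤ m i`, `|d i + d j| ≤ 1`,
`∑ d i = 0`; the coordinates are `y = (d 1 + d 2, d 1 + d 3, d 2 + d 3)`.
-/

set_option autoImplicit false
namespace Pool.Agent.Helper19.OL

theorem small {x y z : ℝ} (hx1 : x ≤ 1 / 2) (hx2 : -(1 / 2) ≤ x) (b1 : -1 < y) (b1' : y < 1)
    (b2 : -1 < z) (b2' : z < 1) {i : ℤ} (h : (i : ℝ) * (1 - x ^ 2) = y - x * z) :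
    -1 ≤ i ∧ i ≤ 1 := by
  have hxx : (0 : ℝ) < 1 - x ^ 2 := by nlinarith
  have key : |y - x * z| < 2 * (1 - x ^ 2) := by
    rcases le_total 0 x with h0 | h0
    · have h1 : x * z ≤ x := by nlinarith
      have h2 : -x ≤ x * z := by nlinarith
      rw [abs_lt]
      constructor <;> nlinarith
    · have h1 : x * z ≤ -x := by nlinarith
      have h2 : x ≤ x * z := by nlinarith
      rw [abs_lt]
      constructor <;> nlinarith
  rw [← h, abs_lt] at key
  constructor
  · by_contra hi
    push Not at hi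
    have hi' : (i : ℝ) ≤ -2 := by exact_mod_cast (show i ≤ -2 by omega)
    nlinarith [mul_le_mul_of_nonneg_right hi' hxx.le]
  · by_contra hi
    push Not at hi
    have hi' : (2 : ℝ) ≤ i := by exact_mod_cast (show 2 ≤ i by omega)
    nlinarith [mul_le_mul_of_nonneg_right hi' hxx.le]

/-- The lattice generated by `(1, x, 0)`, `(x, 1, 0)`, `(a, b, u)` has no nonzero point in the
interior of the difference body. -/
theorem adm {m1 m2 m3 m4 : ℝ} (h1 : m1 ≤ 1) (h2 : m2 ≤ 1) (h3 : m3 ≤ 1) (h4 : m4 ≤ 1)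
    (hs : 3 ≤ m1 + m2 + m3 + m4) {x u a b : ℝ} (hx : x = (m1 + m4 - m2 - m3) / 2)
    (hu : u = (m1 + m2 + m3 + m4) / 2 - 1) (ha : a = (1 + x + m2 + m4 - m1 - m3) / 2)
    (hb : b = (1 + x + m3 + m4 - m1 - m2) / 2) {i j k : ℤ} (h0 : ¬ (i = 0 ∧ j = 0 ∧ k = 0))
    {y1 y2 y3 : ℝ} (e1 : y1 = i * 1 + j * x + k * a) (e2 : y2 = i * x + j * 1 + k * b)
    (e3 : y3 = k * u) (b1 : |y1| < 1) (b2 : |y2| < 1) (b3 : |y3| < 1)
    (c1 : |y1 + y2 - y3| < 2 * m1) (c2 : |y1 - y2 + y3| < 2 * m2)
    (c3 : |-y1 + y2 + y3| < 2 * m3) (c4 : |y1 + y2 + y3| < 2 * m4) : False := by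
  rw [abs_lt] at b1 b2 b3 c1 c2 c3 c4
  obtain ⟨b1, b1'⟩ := b1
  obtain ⟨b2, b2'⟩ := b2
  obtain ⟨b3, b3'⟩ := b3
  obtain ⟨c1, c1'⟩ := c1
  obtain ⟨c2, c2'⟩ := c2
  obtain ⟨c3, c3'⟩ := c3
  obtain ⟨c4, c4'⟩ := c4
  have hx1 : x ≤ 1 / 2 := by linarith
  have hx2 : -(1 / 2) ≤ x := by linarith
  have hu2 : 1 / 2 ≤ u := by linarith
  -- the layer of the point
  have hk1 : k ≤ 1 := by
    by_contra hk
    push Not at hk
    have hk' : (2 : ℝ) ≤ k := by exact_mod_cast hk
    nlinarith
  have hk2 : -1 ≤ k := by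
    by_contra hk
    push Not at hk
    have hk1' : k ≤ -2 := by omega
    have hk' : (k : ℝ) ≤ -2 := by exact_mod_cast hk1'
    nlinarith
  have hp : 0 < 1 + x := by linarith
  have hq : 0 < 1 - x := by linarith
  have cast0 : ∀ n : ℤ, 0 ≤ n → (0 : ℝ) ≤ (n : ℝ) := fun n hn => by exact_mod_cast hn
  subst ha hb hu
  interval_cases k
  · -- the point is `- w + i e + j f`
    push_cast at e1 e2 e3
    rcases le_or_gt (i + j) 0 with h | h
    · have h' := cast0 (-(i + j)) (by omega)
      push_cast at h'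
      have h5 := mul_nonneg h' hp.le
      linarith
    rcases le_or_gt 2 (i + j) with h6 | h6
    · have h' := cast0 (i + j - 2) (by omega)
      push_cast at h'
      have h5 := mul_nonneg h' hp.le
      linarith
    rcases lt_or_ge j i with h7 | h7
    · have h' := cast0 (i - j - 1) (by omega)
      push_cast at h'
      have h5 := mul_nonneg h' hq.le
      linarith
    · have h' := cast0 (j - i - 1) (by omega)
      push_cast at h'
      have h5 := mul_nonneg h' hq.le
      linarith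
  · push_cast at e1 e2 e3
    have hij : ¬ (i = 0 ∧ j = 0) := fun h => h0 ⟨h.1, h.2, rfl⟩
    have hi := small hx1 hx2 b1 b1' b2 b2' (i := i) (by rw [e1, e2]; ring)
    have hj := small hx1 hx2 b2 b2' b1 b1' (i := j) (by rw [e1, e2]; ring)
    obtain ⟨hi, hi2⟩ := hi
    obtain ⟨hj, hj2⟩ := hj
    interval_cases i <;> interval_cases j <;> push_cast at e1 e2 <;>
      first
        | exact hij ⟨rfl, rfl⟩
        | linarith
  · -- the point is `w + i e + j f`
    push_cast at e1 e2 e3
    rcases le_or_gt 0 (i + j) with h | h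
    · have h' := cast0 (i + j) (by omega)
      push_cast at h'
      have h5 := mul_nonneg h' hp.le
      linarith
    rcases le_or_gt (i + j) (-2) with h6 | h6
    · have h' := cast0 (-(i + j) - 2) (by omega)
      push_cast at h'
      have h5 := mul_nonneg h' hp.le
      linarith
    rcases lt_or_ge j i with h7 | h7
    · have h' := cast0 (i - j - 1) (by omega)
      push_cast at h'
      have h5 := mul_nonneg h' hq.le
      linarith
    · have h' := cast0 (j - i - 1) (by omega)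
      push_cast at h'
      have h5 := mul_nonneg h' hq.le
      linarith

end Pool.Agent.Helper19.OL
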