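import Pool.Agent.Helper33.SY.Column

/-!
# A lattice given by three vectors in the coordinates of three linear forms
-/

set_option autoImplicit false
namespace Pool.Agent.Helper19.OL
open MeasureTheory Metric
open Pool.Agent.Helper59.Pack Pool.Agent.Helper69.MD
open scoped ENNReal RealInnerProductSpace

/-- The matrix with rows `r 0`, `r 1`, `r 2`. -/
def rows (r : Fin 3 → E3) : Matrix (Fin 3) (Fin 3) ℝ := Matrix.of fun j k => r j k

theorem rows_apply (r : Fin 3 → E3) (j k : Fin 3) : rows r j k = r j k := rfl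

theorem inner_eq_rows (r : Fin 3 → E3) (j : Fin 3) (z : E3) :
    ⟪r j, z⟫ = (rows r).mulVec (fun k => z k) j := by
  rw [PiLp.inner_apply, Matrix.mulVec, dotProduct]
  refine Finset.sum_congr rfl fun k _ => ?_
  simp [rows, mul_comm]

/-- If the nonzero combinations of three vectors `g i`, in the coordinates of the forms `r j`, are
not in `int K - int K`, then `δ_L(K) ≥ Vol(K) |det r| / |det g|`. -/
theorem deltaL_ge_forms {K : Set E3} (hK : IsConvexBody K) (r : Fin 3 → E3)
    (g : Fin 3 → Fin 3 → ℝ) (hr : (rows r).det ≠ 0) (hg : (Matrix.of g).det ≠ 0)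
    (h : ∀ n : Fin 3 → ℤ, n ≠ 0 → ∀ x ∈ interior K, ∀ y ∈ interior K,
      ¬ ∀ j, ⟪r j, x - y⟫ = ∑ i, (n i : ℝ) * g i j) :
    volume K * ENNReal.ofReal |(rows r).det| / ENNReal.ofReal |(Matrix.of g).det| ≤ deltaL K := by
  set M : Matrix (Fin 3) (Fin 3) ℝ := rows r with hM
  have hMu : IsUnit M.det := isUnit_iff_ne_zero.2 hr
  -- the generators
  set v : Fin 3 → E3 := fun i => WithLp.toLp 2 (M⁻¹.mulVec (g i)) with hv
  have hvr : ∀ i, M.mulVec (fun k => v i k) = g i := by
    intro i
    have : (fun k => v i k) = M⁻¹.mulVec (g i) := rfl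
    rw [this, Matrix.mulVec_mulVec, Matrix.mul_nonsing_inv _ hMu, Matrix.one_mulVec]
  have hmat : rows v = Matrix.of g * (M⁻¹).transpose := by
    ext i k
    rw [rows_apply, Matrix.mul_apply]
    change (M⁻¹.mulVec (g i)) k = _
    rw [Matrix.mulVec, dotProduct]
    refine Finset.sum_congr rfl fun l _ => ?_
    simp [Matrix.transpose_apply, mul_comm]
  have hdet : (rows v).det = (Matrix.of g).det / M.det := by
    rw [hmat, Matrix.det_mul, Matrix.det_transpose, Matrix.det_nonsing_inv, Ring.inverse_eq_inv',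
      div_eq_mul_inv]
  have hdet0 : (rows v).det ≠ 0 := by
    rw [hdet]
    exact div_ne_zero hg hr
  have hli : LinearIndependent ℝ v := by
    have h1 : LinearIndependent ℝ (rows v).row :=
      Matrix.linearIndependent_rows_of_det_ne_zero hdet0
    have h2 : (rows v).row = fun i => (WithLp.linearEquiv 2 ℝ (Fin 3 → ℝ)) (v i) := rfl
    rw [h2] at h1
    exact h1.of_comp (WithLp.linearEquiv 2 ℝ (Fin 3 → ℝ)).toLinearMap
  let b : Module.Basis (Fin 3) ℝ E3 := basisOfLinearIndependentOfCardEqFinrank hli (by simp)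
  have hb : ∀ i, b i = v i := fun i => by simp [b]
  let Λ : Submodule ℤ E3 := Submodule.span ℤ (Set.range b)
  have : DiscreteTopology Λ := by
    change DiscreteTopology (Submodule.span ℤ (Set.range b))
    infer_instance
  have : IsZLattice ℝ Λ := by
    change IsZLattice ℝ (Submodule.span ℤ (Set.range b))
    infer_instance
  have hcov : ZLattice.covolume Λ = |(Matrix.of g).det| / |M.det| := by
    have h1 : ZLattice.covolume Λ = volume.real (ZSpan.fundamentalDomain b) :=
      ZLattice.covolume_eq_measure_fundamentalDomain Λ volume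
        (ZSpan.isAddFundamentalDomain b volume)
    rw [h1, ZSpan.measureReal_fundamentalDomain b volume
      (EuclideanSpace.basisFun (Fin 3) ℝ).toBasis]
    have h2 : volume.real (ZSpan.fundamentalDomain
        (EuclideanSpace.basisFun (Fin 3) ℝ).toBasis) = 1 := by
      rw [Measure.real, vol_std]; rfl
    have h3 : (EuclideanSpace.basisFun (Fin 3) ℝ).toBasis.toMatrix b = (rows v).transpose := by
      ext i j
      simp only [Module.Basis.toMatrix_apply, OrthonormalBasis.coe_toBasis_repr_apply,
        EuclideanSpace.basisFun_repr, Matrix.transpose_apply, rows_apply, hb]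
    rw [h2, mul_one, Module.Basis.det_apply, h3, Matrix.det_transpose, hdet, abs_div]
  have hgpos : 0 < |(Matrix.of g).det| := abs_pos.2 hg
  have hMpos : 0 < |M.det| := abs_pos.2 hr
  have hconf : Conf K sU Λ (fun _ => (0 : E3)) := by
    rintro ⟨⟩ ⟨⟩ u hu hne z h1 h2
    have hu0 : u ≠ 0 := by
      rcases hne with h | h
      · exact absurd rfl h
      · exact h
    have h1' : z ∈ interior K := by simpa [sU] using h1
    have h2' : z - u ∈ interior K := by simpa [sU] using h2
    obtain ⟨c, hc⟩ := (Submodule.mem_span_range_iff_exists_fun ℤ).1 hu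
    have hc' : u = ∑ i, (c i : ℝ) • v i := by
      rw [← hc]
      refine Finset.sum_congr rfl fun i _ => ?_
      rw [hb, Int.cast_smul_eq_zsmul]
    refine h c ?_ z h1' (z - u) h2' ?_
    · rintro rfl
      apply hu0
      rw [hc']
      simp
    · intro j
      rw [sub_sub_cancel, hc', inner_sum]
      refine Finset.sum_congr rfl fun i _ => ?_
      rw [inner_smul_right, inner_eq_rows, ← hM, hvr]
  have hfin := le_dg Λ hconf
  rw [deltaL_eq hK]
  refine le_trans (le_of_eq ?_) hfin
  rw [hcov, ENNReal.ofReal_div_of_pos hMpos]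
  simp only [Fintype.card_unit, Nat.cast_one, one_mul]
  have e2 : ENNReal.ofReal |(Matrix.of g).det| ≠ 0 := (ENNReal.ofReal_pos.2 hgpos).ne'
  rw [ENNReal.div_eq_inv_mul, ENNReal.div_eq_inv_mul, ENNReal.div_eq_inv_mul,
    ENNReal.mul_inv (Or.inr ENNReal.ofReal_ne_top) (Or.inr e2), inv_inv]
  ring

end Pool.Agent.Helper19.OL
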