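import Pool.Agent.Helper19.OL.Gen
import Pool.Agent.Helper19.OL.Adm

/-!
# The outer lattice of a convex body in a truncated simplex
-/

set_option autoImplicit false
namespace Pool.Agent.Helper19.OL
open MeasureTheory Metric
open Pool.Agent.Helper59.Pack Pool.Agent.Helper69.MD
open scoped ENNReal RealInnerProductSpace

/-- An affine function that is nonnegative on `K` is positive in the interior. -/
theorem mu_pos {K : Set E3} {c : ℝ} {w : E3} (hw : w ≠ 0) (h : ∀ x ∈ K, 0 ≤ c + ⟪w, x⟫) {x : E3}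
    (hx : x ∈ interior K) : 0 < c + ⟪w, x⟫ := by
  obtain ⟨ε, hε, hb⟩ := Metric.isOpen_iff.1 isOpen_interior x hx
  have hn : 0 < ‖w‖ := norm_pos_iff.2 hw
  set t : ℝ := ε / (2 * ‖w‖) with ht
  have ht0 : 0 < t := by positivity
  have h1 : x - t • w ∈ ball x ε := by
    rw [mem_ball, dist_eq_norm, sub_sub_cancel_left, norm_neg, norm_smul, Real.norm_eq_abs,
      abs_of_pos ht0, ht]
    have : ε / (2 * ‖w‖) * ‖w‖ = ε / 2 := by field_simp
    rw [this]
    linarith
  have h2 := h _ (interior_subset (hb h1))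
  rw [inner_sub_right, inner_smul_right, real_inner_self_eq_norm_sq] at h2
  have h3 : 0 < t * ‖w‖ ^ 2 := by positivity
  linarith

section
variable {K : Set E3} {w : Fin 4 → E3} {c m : Fin 4 → ℝ}

/-- The sum of the linear parts vanishes. -/
theorem sum_inner_zero (hsum : ∀ x : E3, ∑ i, (c i + ⟪w i, x⟫) = 1) (z : E3) :
    ⟪w 0, z⟫ + ⟪w 1, z⟫ + ⟪w 2, z⟫ + ⟪w 3, z⟫ = 0 := by
  have h1 := hsum z
  have h2 := hsum 0
  simp only [Fin.sum_univ_four, inner_zero_right, add_zero] at h1 h2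
  linarith

theorem w3_eq (hsum : ∀ x : E3, ∑ i, (c i + ⟪w i, x⟫) = 1) : w 3 = -(w 0 + w 1 + w 2) := by
  have h : w 0 + w 1 + w 2 + w 3 = 0 := by
    rw [← inner_self_eq_zero (𝕜 := ℝ)]
    have := sum_inner_zero hsum (w 0 + w 1 + w 2 + w 3)
    rw [inner_add_left, inner_add_left, inner_add_left]
    exact this
  rw [eq_neg_iff_add_eq_zero, add_comm]
  exact h

/-- The volume factor of the frame. -/
noncomputable def dd (w : Fin 4 → E3) : ℝ := (rows ![w 0, w 1, w 2]).det

theorem rows_det (a b d : E3) : (rows ![a, b, d]).det =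
    a 0 * b 1 * d 2 - a 0 * b 2 * d 1 - a 1 * b 0 * d 2 + a 1 * b 2 * d 0 + a 2 * b 0 * d 1 -
      a 2 * b 1 * d 0 := by
  rw [Matrix.det_fin_three]
  simp only [rows_apply, Matrix.cons_val_zero, Matrix.cons_val_one, Matrix.cons_val]

theorem det3 (a b d : Fin 3 → ℝ) : (Matrix.of ![a, b, d]).det =
    a 0 * b 1 * d 2 - a 0 * b 2 * d 1 - a 1 * b 0 * d 2 + a 1 * b 2 * d 0 + a 2 * b 0 * d 1 -
      a 2 * b 1 * d 0 := by
  rw [Matrix.det_fin_three]
  simp only [Matrix.of_apply, Matrix.cons_val_zero, Matrix.cons_val_one, Matrix.cons_val]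

theorem ne_zero_of_dd (hsum : ∀ x : E3, ∑ i, (c i + ⟪w i, x⟫) = 1) (hd : dd w ≠ 0) (i : Fin 4) :
    w i ≠ 0 := by
  intro h
  apply hd
  unfold dd
  rw [rows_det]
  have h3 := w3_eq hsum
  fin_cases i
  · have h : w 0 = 0 := h
    simp [h]
  · have h : w 1 = 0 := h
    simp [h]
  · have h : w 2 = 0 := h
    simp [h]
  · have h : w 3 = 0 := h
    rw [h] at h3
    have h4 : w 2 = -(w 0 + w 1) := by
      have : w 0 + w 1 + w 2 = 0 := by
        rw [← neg_eq_zero]
        exact h3.symm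
      rw [eq_neg_iff_add_eq_zero, add_comm]
      exact this
    rw [h4]
    simp only [PiLp.neg_apply, PiLp.add_apply]
    ring

/-- The outer lattice for the pairing `{0, 3}`, `{1, 2}`. -/
theorem outer0 (hK : IsConvexBody K) (hsum : ∀ x : E3, ∑ i, (c i + ⟪w i, x⟫) = 1)
    (h0 : ∀ i, ∀ x ∈ K, 0 ≤ c i + ⟪w i, x⟫) (hm : ∀ i, ∀ x ∈ K, c i + ⟪w i, x⟫ ≤ m i)
    (hm1 : ∀ i, m i ≤ 1) (hs : 3 ≤ m 0 + m 1 + m 2 + m 3) (hd : dd w ≠ 0) :
    volume K * ENNReal.ofReal (2 * |dd w|) / ENNReal.ofReal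
      (((m 0 + m 1 + m 2 + m 3) / 2 - 1) * (1 - ((m 0 + m 3 - m 1 - m 2) / 2) ^ 2)) ≤
      deltaL K := by
  set U : ℝ := (m 0 + m 1 + m 2 + m 3) / 2 - 1 with hU
  set X : ℝ := (m 0 + m 3 - m 1 - m 2) / 2 with hX
  set a : ℝ := (1 + X + m 1 + m 3 - m 0 - m 2) / 2 with ha
  set b : ℝ := (1 + X + m 2 + m 3 - m 0 - m 1) / 2 with hb
  have q0 := hm1 0
  have q1 := hm1 1
  have q2 := hm1 2
  have q3 := hm1 3
  have hU2 : 1 / 2 ≤ U := by rw [hU]; linarith
  have hX1 : X ≤ 1 / 2 := by rw [hX]; linarith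
  have hX2 : -(1 / 2) ≤ X := by rw [hX]; linarith
  have hpos : 0 < U * (1 - X ^ 2) := mul_pos (by linarith) (by nlinarith)
  have e1 : |(rows ![w 0 + w 1, w 0 + w 2, w 1 + w 2]).det| = 2 * |dd w| := by
    have : (rows ![w 0 + w 1, w 0 + w 2, w 1 + w 2]).det = (-2) * dd w := by
      unfold dd
      rw [rows_det, rows_det]
      simp only [PiLp.add_apply]
      ring
    rw [this, abs_mul]
    norm_num
  have e2 : (Matrix.of ![![1, X, 0], ![X, 1, 0], ![a, b, U]]).det = U * (1 - X ^ 2) := by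
    rw [det3]
    simp only [Matrix.cons_val_zero, Matrix.cons_val_one, Matrix.cons_val]
    ring
  have hmain := deltaL_ge_forms hK ![w 0 + w 1, w 0 + w 2, w 1 + w 2]
    ![![1, X, 0], ![X, 1, 0], ![a, b, U]] (by
      intro h
      rw [h, abs_zero] at e1
      have := abs_pos.2 hd
      linarith) (by rw [e2]; exact hpos.ne') ?_
  · rw [e1, e2, abs_of_pos hpos] at hmain
    exact hmain
  · intro n hn x hx y hy hj
    have hz := sum_inner_zero hsum (x - y)
    have px : ∀ i, 0 < c i + ⟪w i, x⟫ := fun i => mu_pos (ne_zero_of_dd hsum hd i) (h0 i) hx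
    have py : ∀ i, 0 < c i + ⟪w i, y⟫ := fun i => mu_pos (ne_zero_of_dd hsum hd i) (h0 i) hy
    have mx : ∀ i, c i + ⟪w i, x⟫ ≤ m i := fun i => hm i x (interior_subset hx)
    have my : ∀ i, c i + ⟪w i, y⟫ ≤ m i := fun i => hm i y (interior_subset hy)
    have sx := hsum x
    have sy := hsum y
    rw [Fin.sum_univ_four] at sx sy
    have j0 := hj 0
    have j1 := hj 1
    have j2 := hj 2
    simp only [Fin.sum_univ_three, Matrix.cons_val_zero, Matrix.cons_val_one, Matrix.cons_val,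
      inner_add_left, inner_sub_right, mul_zero, add_zero, zero_add] at j0 j1 j2
    simp only [inner_sub_right] at hz
    have px0 := px 0
    have px1 := px 1
    have px2 := px 2
    have px3 := px 3
    have py0 := py 0
    have py1 := py 1
    have py2 := py 2
    have py3 := py 3
    have mx0 := mx 0
    have mx1 := mx 1
    have mx2 := mx 2
    have mx3 := mx 3
    have my0 := my 0
    have my1 := my 1
    have my2 := my 2
    have my3 := my 3
    refine adm (m1 := m 0) (m2 := m 1) (m3 := m 2) (m4 := m 3) q0 q1 q2 q3 hs hX hU ha hb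
      (i := n 0) (j := n 1) (k := n 2) ?_ j0.symm.symm j1 j2 ?_ ?_ ?_ ?_ ?_ ?_ ?_
    · rintro ⟨r0, r1, r2⟩
      apply hn
      ext i
      fin_cases i
      exacts [r0, r1, r2]
    all_goals
      rw [abs_lt]
      constructor <;> linarith

end

end Pool.Agent.Helper19.OL
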