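import Pool.Agent.Helper19.OL.Out

/-!
# The outer regime
-/

set_option autoImplicit false
namespace Pool.Agent.Helper19.OL
open MeasureTheory Metric
open Pool.Agent.Helper59.Pack Pool.Agent.Helper69.MD
open scoped ENNReal RealInnerProductSpace

section
variable {K : Set E3} {w : Fin 4 → E3} {c m : Fin 4 → ℝ}

/-- The outer lattice for the pairing `{0, 1}`, `{2, 3}`. -/
theorem outer1 (hK : IsConvexBody K) (hsum : ∀ x : E3, ∑ i, (c i + ⟪w i, x⟫) = 1)
    (h0 : ∀ i, ∀ x ∈ K, 0 ≤ c i + ⟪w i, x⟫) (hm : ∀ i, ∀ x ∈ K, c i + ⟪w i, x⟫ ≤ m i)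
    (hm1 : ∀ i, m i ≤ 1) (hs : 3 ≤ m 0 + m 1 + m 2 + m 3) (hd : dd w ≠ 0) :
    volume K * ENNReal.ofReal (2 * |dd w|) / ENNReal.ofReal
      (((m 0 + m 1 + m 2 + m 3) / 2 - 1) * (1 - ((m 0 + m 1 - m 2 - m 3) / 2) ^ 2)) ≤
      deltaL K := by
  have hw3 := w3_eq hsum
  have hd' : dd ![w 0, w 3, w 2, w 1] = -dd w := by
    unfold dd
    simp only [Matrix.cons_val_zero, Matrix.cons_val_one, Matrix.cons_val]
    rw [rows_det, rows_det, hw3]
    simp only [PiLp.add_apply, PiLp.neg_apply]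
    ring
  have h := outer0 (w := ![w 0, w 3, w 2, w 1]) (c := ![c 0, c 3, c 2, c 1])
    (m := ![m 0, m 3, m 2, m 1]) hK (fun x => by
      rw [← hsum x]
      simp only [Fin.sum_univ_four, Matrix.cons_val_zero, Matrix.cons_val_one, Matrix.cons_val]
      ring) (fun i => by
      fin_cases i
      exacts [h0 0, h0 3, h0 2, h0 1]) (fun i => by
      fin_cases i
      exacts [hm 0, hm 3, hm 2, hm 1]) (fun i => by
      fin_cases i
      exacts [hm1 0, hm1 3, hm1 2, hm1 1]) (by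
      simp only [Matrix.cons_val_zero, Matrix.cons_val_one, Matrix.cons_val]
      linarith) (by rw [hd']; exact neg_ne_zero.2 hd)
  rw [hd', abs_neg] at h
  simp only [Matrix.cons_val_zero, Matrix.cons_val_one, Matrix.cons_val] at h
  convert h using 3
  ring

/-- The outer lattice for the pairing `{0, 2}`, `{1, 3}`. -/
theorem outer2 (hK : IsConvexBody K) (hsum : ∀ x : E3, ∑ i, (c i + ⟪w i, x⟫) = 1)
    (h0 : ∀ i, ∀ x ∈ K, 0 ≤ c i + ⟪w i, x⟫) (hm : ∀ i, ∀ x ∈ K, c i + ⟪w i, x⟫ ≤ m i)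
    (hm1 : ∀ i, m i ≤ 1) (hs : 3 ≤ m 0 + m 1 + m 2 + m 3) (hd : dd w ≠ 0) :
    volume K * ENNReal.ofReal (2 * |dd w|) / ENNReal.ofReal
      (((m 0 + m 1 + m 2 + m 3) / 2 - 1) * (1 - ((m 0 + m 2 - m 1 - m 3) / 2) ^ 2)) ≤
      deltaL K := by
  have hw3 := w3_eq hsum
  have hd' : dd ![w 0, w 1, w 3, w 2] = -dd w := by
    unfold dd
    simp only [Matrix.cons_val_zero, Matrix.cons_val_one, Matrix.cons_val]
    rw [rows_det, rows_det, hw3]
    simp only [PiLp.add_apply, PiLp.neg_apply]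
    ring
  have h := outer0 (w := ![w 0, w 1, w 3, w 2]) (c := ![c 0, c 1, c 3, c 2])
    (m := ![m 0, m 1, m 3, m 2]) hK (fun x => by
      rw [← hsum x]
      simp only [Fin.sum_univ_four, Matrix.cons_val_zero, Matrix.cons_val_one, Matrix.cons_val]
      ring) (fun i => by
      fin_cases i
      exacts [h0 0, h0 1, h0 3, h0 2]) (fun i => by
      fin_cases i
      exacts [hm 0, hm 1, hm 3, hm 2]) (fun i => by
      fin_cases i
      exacts [hm1 0, hm1 1, hm1 3, hm1 2]) (by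
      simp only [Matrix.cons_val_zero, Matrix.cons_val_one, Matrix.cons_val]
      linarith) (by rw [hd']; exact neg_ne_zero.2 hd)
  rw [hd', abs_neg] at h
  simp only [Matrix.cons_val_zero, Matrix.cons_val_one, Matrix.cons_val] at h
  convert h using 3
  ring

/-- The matrix of the values of the affine coordinates at four points. -/
noncomputable def vals (w : Fin 4 → E3) (c : Fin 4 → ℝ) (p : Fin 4 → E3) :
    Matrix (Fin 4) (Fin 4) ℝ := Matrix.of fun i j => c j + ⟪w j, p i⟫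

theorem det_vals (hsum : ∀ x : E3, ∑ i, (c i + ⟪w i, x⟫) = 1) (p : Fin 4 → E3) :
    |(vals w c p).det| = |dd w| * |(rows ![p 1 - p 0, p 2 - p 0, p 3 - p 0]).det| := by
  have hw3 := w3_eq hsum
  have hc3 : c 3 = 1 - c 0 - c 1 - c 2 := by
    have := hsum 0
    simp only [Fin.sum_univ_four, inner_zero_right, add_zero] at this
    linarith
  set A : Matrix (Fin 4) (Fin 4) ℝ := Matrix.of fun i j => ![1, p i 0, p i 1, p i 2] j with hA
  set B : Matrix (Fin 4) (Fin 4) ℝ := Matrix.of fun i j => ![c j, w j 0, w j 1, w j 2] i with hB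
  have hAB : vals w c p = A * B := by
    ext i j
    rw [Matrix.mul_apply]
    simp only [vals, hA, hB, Matrix.of_apply, Fin.sum_univ_four, Matrix.cons_val_zero,
      Matrix.cons_val_one, Matrix.cons_val, one_mul]
    rw [PiLp.inner_apply, Fin.sum_univ_three]
    simp
    ring
  have hdA : A.det = (rows ![p 1 - p 0, p 2 - p 0, p 3 - p 0]).det := by
    rw [rows_det, Matrix.det_succ_row_zero]
    simp [hA, Fin.sum_univ_succ, Matrix.det_fin_three, Fin.succAbove]
    ring
  have hdB : B.det = -dd w := by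
    unfold dd
    rw [rows_det, Matrix.det_succ_row_zero]
    have f0 : (w 3) 0 = -((w 0) 0 + (w 1) 0 + (w 2) 0) := by rw [hw3]; simp
    have f1 : (w 3) 1 = -((w 0) 1 + (w 1) 1 + (w 2) 1) := by rw [hw3]; simp
    have f2 : (w 3) 2 = -((w 0) 2 + (w 1) 2 + (w 2) 2) := by rw [hw3]; simp
    simp [hB, Fin.sum_univ_succ, Matrix.det_fin_three, Fin.succAbove]
    rw [f0, f1, f2, hc3]
    ring
  rw [hAB, Matrix.det_mul, hdA, hdB, abs_mul, abs_neg, mul_comm]

end

end Pool.Agent.Helper19.OL
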